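import Pool.Agent.H913.LG.Final

/-! MP_d7c545_al, Q1 (negative answer): the Sobolev gap does not depend on the weight in a Lipschitz
way. The definitions are in `Pool.Agent.H913.SGP.Definitions` and `Pool.Agent.H913.LGP.Definitions`. -/

open Pool.Agent.H913.SGP Pool.Agent.H913.LGP

namespace Pool.Agent.Results.MP_d7c545_al.GapNotLipschitz

/-- There is a connected (hence inner type) real reductive group `G` such that, for every
`Ad(K)`-invariant inner product on `𝔨` (given by an orthonormal basis `b`, which defines the Laplacian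
`Δ_K`) and every real `C`, there are a weight `w`, a Harish-Chandra module `V` with `Norm(V, w)`
not empty and `t ≥ 0` such that `s(V, w_t) > s(V, w) + C t`. -/
theorem result : ∃ (n : ℕ) (G : Type) (_ : Group G) (_ : TopologicalSpace G)
    (GR : Subgroup (Matrix.GeneralLinearGroup (Fin n) ℝ))
    (ρ : G →* Matrix.GeneralLinearGroup (Fin n) ℝ), IsTopologicalGroup G ∧ T2Space G ∧
    ConnectedSpace G ∧ IsRealReductive GR ρ ∧
    (∃ (m : ℕ) (b : Fin m → LieAlg GR), IsInvBasis GR ρ b) ∧
    ∀ (m : ℕ) (b : Fin m → LieAlg GR), IsInvBasis GR ρ b → ∀ C : ℝ,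
      ∃ (w : G → ℝ) (V : Type) (_ : AddCommGroup V) (_ : Module ℂ V) (Mo : HCModule GR ρ V) (t : ℝ),
        IsWeight w ∧ 0 ≤ t ∧ HasMinMax Mo w ∧ HasMinMax Mo (twist GR ρ w t) ∧
        (gapSet Mo b w).Nonempty ∧ (gapSet Mo b (twist GR ρ w t)).Nonempty ∧
        sobolevGap Mo b w + C * t < sobolevGap Mo b (twist GR ρ w t) :=
  Pool.Agent.H913.LG.final_d7c

end Pool.Agent.Results.MP_d7c545_al.GapNotLipschitz
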